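import Pool.Agent.K7.H97.MI.Defs
import Pool.Agent.Helper668.QA

/-!
Project MI (MP_4e44b6_al), JOB FIN: every cone over the image of an element of the trace ring is the
image of a semihomogeneous polynomial.
-/

set_option autoImplicit false
set_option linter.unusedVariables false

namespace Pool.Agent.K7.H42.MI

open Pool.Agent.K7.H97.MI
open Pool.Agent.Helper668.QI (Homo)

/-! ### from the trace ring to the free algebra -/

def wt : ℕ ⊕ Fin 3 → ℕ := Sum.elim (fun _ => 0) (fun _ => 1)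

noncomputable def apoly : FreeAlgebra ℝ (ℕ ⊕ Fin 3) :=
  FreeAlgebra.ι ℝ (Sum.inr 0) * FreeAlgebra.ι ℝ (Sum.inr 1)
    - FreeAlgebra.ι ℝ (Sum.inr 1) * FreeAlgebra.ι ℝ (Sum.inr 0)

noncomputable def wpoly : FreeAlgebra ℝ (ℕ ⊕ Fin 3) := FreeAlgebra.ι ℝ (Sum.inr 2)

noncomputable def bpoly : FreeAlgebra ℝ (ℕ ⊕ Fin 3) := apoly * wpoly - wpoly * apoly

noncomputable def cpoly : FreeAlgebra ℝ (ℕ ⊕ Fin 3) := bpoly * bpoly

theorem homo_a : Homo wt 2 apoly := by
  have h0 : Homo wt 1 (FreeAlgebra.ι ℝ (Sum.inr 0)) := Homo.var (w := wt) (Sum.inr 0)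
  have h1 : Homo wt 1 (FreeAlgebra.ι ℝ (Sum.inr 1)) := Homo.var (w := wt) (Sum.inr 1)
  exact (h0.mul h1).sub (h1.mul h0)

theorem homo_w : Homo wt 1 wpoly := Homo.var (w := wt) (Sum.inr 2)

theorem homo_b : Homo wt 3 bpoly := (homo_a.mul homo_w).sub ((homo_w.mul homo_a).cast (by norm_num))

theorem homo_c : Homo wt 6 cpoly := homo_b.mul homo_b

/-- the values -/
noncomputable def aval (t : Fin 3 → M2) : M2 := t 0 * t 1 - t 1 * t 0
noncomputable def bval (t : Fin 3 → M2) : M2 := aval t * t 2 - t 2 * aval t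
noncomputable def cval (t : Fin 3 → M2) : ℝ := - (bval t).det

theorem aval_tr (t : Fin 3 → M2) : (aval t).trace = 0 := by
  rw [aval, Matrix.trace_sub, Matrix.trace_mul_comm, sub_self]

theorem bval_tr (t : Fin 3 → M2) : (bval t).trace = 0 := by
  rw [bval, Matrix.trace_sub, Matrix.trace_mul_comm, sub_self]

theorem sq_of_tr_zero {b : M2} (hb : b.trace = 0) : b * b = (-b.det) • (1 : M2) := by
  rw [Matrix.trace_fin_two] at hb
  have h1 : b 1 1 = - b 0 0 := by linarith
  ext i j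
  fin_cases i <;> fin_cases j <;>
    simp [Matrix.mul_apply, Fin.sum_univ_two, Matrix.det_fin_two, h1] <;> ring

theorem bval_sq (t : Fin 3 → M2) : bval t * bval t = cval t • (1 : M2) :=
  sq_of_tr_zero (bval_tr t)

theorem lift_a (x : Om) (t : Fin 3 → M2) : FreeAlgebra.lift ℝ (Sum.elim x t) apoly = aval t := by
  simp [apoly, aval]

theorem lift_w (x : Om) (t : Fin 3 → M2) : FreeAlgebra.lift ℝ (Sum.elim x t) wpoly = t 2 := by
  simp [wpoly]

theorem lift_b (x : Om) (t : Fin 3 → M2) : FreeAlgebra.lift ℝ (Sum.elim x t) bpoly = bval t := by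
  rw [bpoly, map_sub, map_mul, map_mul, lift_a, lift_w, bval]

theorem lift_c (x : Om) (t : Fin 3 → M2) :
    FreeAlgebra.lift ℝ (Sum.elim x t) cpoly = cval t • (1 : M2) := by
  rw [cpoly, map_mul, lift_b, bval_sq]

theorem smul_one_pow (c : ℝ) (k : ℕ) : (c • (1 : M2)) ^ k = c ^ k • (1 : M2) := by
  rw [smul_pow, one_pow]

theorem trace_identity (a Q w : M2) (ha : a.trace = 0) :
    (a * Q + Q * a) * w - w * (a * Q + Q * a) = Q.trace • (a * w - w * a) := by
  rw [Matrix.trace_fin_two] at ha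
  have h1 : a 1 1 = - a 0 0 := by linarith
  ext i j
  fin_cases i <;> fin_cases j <;>
    simp [Matrix.mul_apply, Fin.sum_univ_two, Matrix.trace_fin_two, h1] <;> ring

theorem TR.poly {P : Om → M2} (h : TR P) :
    ∃ (k : ℕ) (q : FreeAlgebra ℝ (ℕ ⊕ Fin 3)), Homo wt (6 * k) q ∧
      ∀ (x : Om) (t : Fin 3 → M2),
        FreeAlgebra.lift ℝ (Sum.elim x t) q = (cval t) ^ k • P x := by
  induction h with
  | const r =>
    refine ⟨0, algebraMap ℝ _ r, Homo.const r, fun x t => ?_⟩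
    rw [AlgHom.commutes, pow_zero, one_smul, Algebra.algebraMap_eq_smul_one]
  | var i =>
    refine ⟨0, FreeAlgebra.ι ℝ (Sum.inl i), Homo.var (w := wt) (Sum.inl i), fun x t => ?_⟩
    rw [FreeAlgebra.lift_ι_apply, pow_zero, one_smul]; rfl
  | @add f g hf hg ihf ihg =>
    obtain ⟨k1, q1, h1, e1⟩ := ihf
    obtain ⟨k2, q2, h2, e2⟩ := ihg
    refine ⟨k1 + k2, cpoly ^ k2 * q1 + cpoly ^ k1 * q2, ?_, fun x t => ?_⟩
    · exact (((homo_c.pow k2).mul h1).cast (by ring)).add (((homo_c.pow k1).mul h2).cast (by ring))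
    · rw [map_add, map_mul, map_mul, map_pow, map_pow, lift_c, e1, e2, smul_one_pow,
        smul_one_pow, smul_one_mul, smul_one_mul, smul_smul, smul_smul, smul_add, pow_add]
      congr 2
      ring
  | @mul f g hf hg ihf ihg =>
    obtain ⟨k1, q1, h1, e1⟩ := ihf
    obtain ⟨k2, q2, h2, e2⟩ := ihg
    refine ⟨k1 + k2, q1 * q2, (h1.mul h2).cast (by ring), fun x t => ?_⟩
    rw [map_mul, e1, e2, smul_mul_smul_comm, pow_add]
  | @tr f hf ihf =>
    obtain ⟨k, q, h1, e1⟩ := ihf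
    refine ⟨k + 1, (((apoly * q + q * apoly) * wpoly - wpoly * (apoly * q + q * apoly)) * bpoly), ?_,
      fun x t => ?_⟩
    · have hs : Homo wt (2 + 6 * k) (apoly * q + q * apoly) :=
        (homo_a.mul h1).add ((h1.mul homo_a).cast (by ring))
      have hs2 : Homo wt (2 + 6 * k + 1)
          ((apoly * q + q * apoly) * wpoly - wpoly * (apoly * q + q * apoly)) :=
        (hs.mul homo_w).sub ((homo_w.mul hs).cast (by ring))
      exact (hs2.mul homo_b).cast (by ring)
    · rw [map_mul, map_sub, map_mul, map_mul, map_add, map_mul, map_mul, lift_a, lift_w,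
        lift_b, e1, trace_identity _ _ _ (aval_tr t), ← bval, smul_mul_assoc,
        bval_sq, Matrix.trace_smul, smul_smul, smul_smul, smul_eq_mul]
      congr 1
      ring

theorem free_local {X : Type} (p : FreeAlgebra ℝ X) :
    ∃ V : Finset X, ∀ x x' : X → M2, (∀ i ∈ V, x i = x' i) →
      FreeAlgebra.lift ℝ x p = FreeAlgebra.lift ℝ x' p := by
  classical
  induction p using FreeAlgebra.induction with
  | grade0 r => exact ⟨∅, fun x x' _ => by rw [AlgHom.commutes, AlgHom.commutes]⟩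
  | grade1 i => exact ⟨{i}, fun x x' h => by
      rw [FreeAlgebra.lift_ι_apply, FreeAlgebra.lift_ι_apply, h i (by simp)]⟩
  | mul a b ha hb =>
    obtain ⟨V, hV⟩ := ha
    obtain ⟨W, hW⟩ := hb
    refine ⟨V ∪ W, fun x x' h => ?_⟩
    rw [map_mul, map_mul, hV x x' (fun i hi => h i (Finset.mem_union_left _ hi)),
      hW x x' (fun i hi => h i (Finset.mem_union_right _ hi))]
  | add a b ha hb =>
    obtain ⟨V, hV⟩ := ha
    obtain ⟨W, hW⟩ := hb
    refine ⟨V ∪ W, fun x x' h => ?_⟩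
    rw [map_add, map_add, hV x x' (fun i hi => h i (Finset.mem_union_left _ hi)),
      hW x x' (fun i hi => h i (Finset.mem_union_right _ hi))]

theorem cval_eq (r : ℝ) :
    cval ![!![0, r; 0, 0], !![0, 0; r, 0], !![0, r; -r, 0]] = 4 * r ^ 6 := by
  simp only [cval, bval, aval, Matrix.cons_val_zero, Matrix.cons_val_one, Matrix.cons_val]
  rw [Matrix.det_fin_two]
  simp [Matrix.mul_apply, Fin.sum_univ_two]
  ring

theorem cval_surj (n : ℕ) (hn : n ≠ 0) (c : ℝ) (hc : 0 ≤ c) :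
    ∃ t : Fin 3 → M2, (cval t) ^ (2 * n) = c := by
  set μ := (c ^ (((2 * n : ℕ) : ℝ)⁻¹)) with hμ
  have hμ0 : 0 ≤ μ := Real.rpow_nonneg hc _
  have hμ1 : μ ^ (2 * n) = c := Real.rpow_inv_natCast_pow hc (by omega)
  set r := ((μ / 4) ^ (((6 : ℕ) : ℝ)⁻¹)) with hr
  have hr1 : r ^ 6 = μ / 4 := Real.rpow_inv_natCast_pow (by positivity) (by norm_num)
  refine ⟨![!![0, r; 0, 0], !![0, 0; r, 0], !![0, r; -r, 0]], ?_⟩
  have : cval ![!![0, r; 0, 0], !![0, 0; r, 0], !![0, r; -r, 0]] = μ := by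
    rw [cval_eq, hr1]; ring
  rw [this, hμ1]

/-- JOB FIN -/
theorem fin : StFin := by
  classical
  intro P hP
  obtain ⟨k, q, hq, hval⟩ := TR.poly hP
  set p1 : FreeAlgebra ℝ (ℕ ⊕ Fin 3) := cpoly ^ (k + 2) * q with hp1
  have hp1h : Homo wt (6 * (2 * (k + 1))) p1 := ((homo_c.pow (k + 2)).mul hq).cast (by ring)
  have hp1v : ∀ (x : Om) (t : Fin 3 → M2),
      FreeAlgebra.lift ℝ (Sum.elim x t) p1 = (cval t) ^ (2 * (k + 1)) • P x := by
    intro x t
    rw [hp1, map_mul, map_pow, lift_c, hval, smul_one_pow, smul_one_mul,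
      smul_smul, ← pow_add]
    congr 2
    ring
  obtain ⟨V, hV⟩ := free_local p1
  set e := V.equivFin with he
  let g : (ℕ ⊕ Fin 3) → FreeAlgebra ℝ (Fin V.card) := fun i =>
    if h : i ∈ V then FreeAlgebra.ι ℝ (e ⟨i, h⟩) else 0
  let w' : Fin V.card → ℕ := fun j => wt (e.symm j).1
  have hg : ∀ i, Homo w' (wt i) (g i) := by
    intro i
    by_cases h : i ∈ V
    · simp only [g, dif_pos h]
      have := Homo.var (w := w') (e ⟨i, h⟩)
      simpa [w'] using this
    · simp only [g, dif_neg h]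
      exact Homo.zero _
  refine ⟨V.card, FreeAlgebra.lift ℝ g p1, ?_, ?_⟩
  · refine ⟨w', ((6 * (2 * (k + 1)) : ℕ) : ℤ), ?_, ?_⟩
    · have : (0 : ℤ) < ((6 * (2 * (k + 1)) : ℕ) : ℤ) := by exact_mod_cast (by positivity)
      exact this.ne'
    · intro l hl
      exact_mod_cast (hp1h.lift g hg).coeff l hl
  · have hcomp : ∀ y : Fin V.card → M2, FreeAlgebra.lift ℝ y (FreeAlgebra.lift ℝ g p1)
        = FreeAlgebra.lift ℝ (fun i => FreeAlgebra.lift ℝ y (g i)) p1 := by
      intro y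
      have : (FreeAlgebra.lift ℝ y).comp (FreeAlgebra.lift ℝ g)
          = FreeAlgebra.lift ℝ (fun i => FreeAlgebra.lift ℝ y (g i)) := by
        apply FreeAlgebra.hom_ext
        funext i
        simp
      exact DFunLike.congr_fun this p1
    apply Set.eq_of_subset_of_subset
    · rintro _ ⟨y, rfl⟩
      simp only
      rw [hcomp]
      set z : ℕ ⊕ Fin 3 → M2 := fun i => FreeAlgebra.lift ℝ y (g i) with hz
      have hz' : z = Sum.elim (fun i => z (Sum.inl i)) (fun j => z (Sum.inr j)) := by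
        funext i; rcases i with i | i <;> rfl
      rw [hz', hp1v]
      exact ⟨_, _, by rw [pow_mul]; positivity, rfl⟩
    · rintro q ⟨c, x, hc, rfl⟩
      obtain ⟨t, ht⟩ := cval_surj (k + 1) (by omega) c hc
      refine ⟨fun j => Sum.elim x t (e.symm j).1, ?_⟩
      simp only
      rw [hcomp, ← ht, ← hp1v]
      apply hV
      intro i hi
      simp only [g, dif_pos hi]
      simp

end Pool.Agent.K7.H42.MI
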